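import Pool.Agent.Helper79.AL.St3

/-!
# Project AL, module SPL: the decomposition of the centre
-/

set_option autoImplicit false

namespace Pool.Agent.Helper71.AL

open Matrix ComplexConjugate Pool.Agent.Helper94.YG
open Pool.Agent.Helper94.YF hiding StORB
open Pool.Agent.Helper89.OS Pool.Agent.Helper89.OC Pool.Agent.Helper79.AL

section

variable {I : Type} [Fintype I] [DecidableEq I]

lemma spl_orth (Z : CentreData I) (B : GLB Z) (D E : I → Prop) (h1 : FS Z D) (h2 : FS Z E)
    (hint : ∀ x, D x → E x → x = Z.o) (i j i' j' : I) (hi : D i) (hj : E j) (hi' : D i')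
    (hj' : E j') : ∑ l, Z.N i j l * Z.N i' j' l =
      (if i = i' then 1 else 0) * (if j' = j then 1 else 0) := by
  rw [B.assoc, ← B.N_o i i', ← B.N_o j' j]
  refine Finset.sum_eq_single Z.o ?_ ?_
  · intro l _ hl
    by_contra hne
    have ha : Z.N i (Z.st i') l ≠ 0 := fun h => hne (by rw [h, zero_mul])
    have hb : Z.N j' (Z.st j) l ≠ 0 := fun h => hne (by rw [h, mul_zero])
    exact hl (hint l (h1.fus _ _ _ hi (h1.st _ hi') ha) (h2.fus _ _ _ hj' (h2.st _ hj) hb))
  · intro h
    exact absurd (Finset.mem_univ _) h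

/-- natural numbers whose squares have sum `1` -/
lemma spl_one (f : I → ℕ) (h : ∑ l, f l * f l = 1) :
    ∃ v, ∀ l, f l = if l = v then 1 else 0 := by
  have hne : ∃ v, f v ≠ 0 := by
    by_contra hc
    push Not at hc
    simp [hc] at h
  obtain ⟨v, hv⟩ := hne
  refine ⟨v, fun l => ?_⟩
  have hs := Finset.add_sum_erase Finset.univ (fun l => f l * f l) (Finset.mem_univ v)
  rw [h] at hs
  have hv1 : 1 ≤ f v := Nat.one_le_iff_ne_zero.2 hv
  have hv2 : 1 ≤ f v * f v := Nat.one_le_iff_ne_zero.2 (mul_ne_zero hv hv)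
  have hz : ∑ l ∈ Finset.univ.erase v, f l * f l = 0 := by
    omega
  have hvv : f v * f v = 1 := by
    omega
  split_ifs with hl
  · rw [hl]
    nlinarith
  · have := (Finset.sum_eq_zero_iff.1 hz) l (Finset.mem_erase.2 ⟨hl, Finset.mem_univ _⟩)
    exact mul_self_eq_zero.1 this

lemma spl_glob (Z : CentreData I) : ∑ V, ((Z.d V : ℤ)) ^ 2 = (Z.n : ℤ) ^ 2 := by
  have h := congrFun (congrFun (Helper13.OS.xe_uni' Z.toCentreRep Sm) Z.o) Z.o
  rw [Matrix.mul_apply] at h
  simp only [Matrix.one_apply, if_true, Matrix.conjTranspose_apply] at h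
  have hn : (Z.n : ℂ) ≠ 0 := Nat.cast_ne_zero.2 Z.n_pos.ne'
  have h2 : ∀ x, Z.rho Sm Z.o x * star (Z.rho Sm Z.o x) = (Z.d x : ℂ) ^ 2 / (Z.n : ℂ) ^ 2 := by
    intro x
    rw [Z.s_o]
    rw [show star ((Z.d x : ℂ) / (Z.n : ℂ)) = (Z.d x : ℂ) / (Z.n : ℂ) from by
      rw [star_div₀]
      simp]
    field_simp
  rw [Finset.sum_congr rfl fun x _ => h2 x, ← Finset.sum_div] at h
  rw [div_eq_one_iff_eq (pow_ne_zero 2 hn)] at h
  exact_mod_cast h

end

theorem hSPL : StSPL := by
  intro hCEF hDIM hGLA hGLB hGLC I _ _ Z D hD hint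
  classical
  have A := hGLA I Z
  have B := hGLB I Z
  have C := hGLC hGLA hGLB I Z
  have fs2 : FS Z (Ce Z D) := (hCEF hGLA hGLB hGLC I Z D).1
  obtain ⟨hst, -, -, -, -, -⟩ := Helper88.YF.hDUA I Z.toCentreRep
  have dC : ∀ i, (Z.d i : ℂ) ≠ 0 := fun i => Nat.cast_ne_zero.2 (Z.d_pos i).ne'
  have cen : ∀ i j, D i → Ce Z D j → Sf Z i j = (Z.d i : ℂ) * Z.d j := fun i j hi hj => hj i hi
  have orth := spl_orth Z B D (Ce Z D) hD fs2 hint
  have ex : ∀ i j, D i → Ce Z D j → ∃ v, ∀ l, Z.N i j l = if l = v then 1 else 0 := by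
    intro i j hi hj
    apply spl_one
    rw [orth i j i j hi hj hi hj]
    simp
  let m : I → I → I := fun i j =>
    if h : ∃ v, ∀ l, Z.N i j l = if l = v then 1 else 0 then h.choose else Z.o
  have hm : ∀ i j l, D i → Ce Z D j → Z.N i j l = if l = m i j then 1 else 0 := by
    intro i j l hi hj
    have h := ex i j hi hj
    have hmm : m i j = h.choose := by
      simp only [m]
      rw [dif_pos h]
    rw [hmm]
    exact h.choose_spec l
  have hd : ∀ i j, D i → Ce Z D j → Z.d (m i j) = Z.d i * Z.d j := by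
    intro i j hi hj
    rw [B.dim i j, Finset.sum_congr rfl fun l _ => by rw [hm i j l hi hj]]
    simp
  have hinj : ∀ i j i' j', D i → Ce Z D j → D i' → Ce Z D j' → m i j = m i' j' →
      i = i' ∧ j = j' := by
    intro i j i' j' hi hj hi' hj' h
    have h1 := orth i j i' j' hi hj hi' hj'
    have h2 : ∑ l, Z.N i j l * Z.N i' j' l = 1 := by
      rw [Finset.sum_congr rfl fun l _ => by rw [hm i j l hi hj, hm i' j' l hi' hj', h]]
      simp
    rw [h2] at h1
    by_cases ha : i = i'
    · by_cases hb : j' = j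
      · exact ⟨ha, hb.symm⟩
      · rw [if_neg hb, mul_zero] at h1
        exact absurd h1 one_ne_zero
    · rw [if_neg ha, zero_mul] at h1
      exact absurd h1 one_ne_zero
  have hchi : ∀ k i j, D i → Ce Z D j → Cchi Z k (m i j) = Cchi Z k i * Cchi Z k j := by
    intro k i j hi hj
    rw [A.chi_mul k i j, Finset.sum_congr rfl fun l _ => by rw [hm i j l hi hj]]
    simp
  refine ⟨m, hD, fs2, cen, hint, hm, ?_, ?_, hd, ?_, ?_, hinj, ?_⟩
  · intro i hi
    have h1 := hm i Z.o i hi fs2.o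
    have h2 := Helper48.OS.N_right Z.toCentreRep hst i i
    rw [if_pos rfl] at h2
    have h3 : Z.N i Z.o i = 1 := by exact_mod_cast h2
    rw [h3] at h1
    by_contra hne
    rw [if_neg fun h => hne h.symm] at h1
    exact absurd h1 one_ne_zero
  · intro j hj
    have h1 := hm Z.o j j hD.o hj
    have h2 := Helper48.OS.N_left Z.toCentreRep hst j j
    rw [if_pos rfl] at h2
    have h3 : Z.N Z.o j j = 1 := by exact_mod_cast h2
    rw [h3] at h1
    by_contra hne
    rw [if_neg fun h => hne h.symm] at h1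
    exact absurd h1 one_ne_zero
  · intro z i j hi hj
    have h1 : Z.th (m i j) = Z.th i * Z.th j := by
      refine C.bal i j (m i j) (cen i j hi hj) ?_
      rw [hm i j (m i j) hi hj, if_pos rfl]
      exact one_ne_zero
    show Z.th (m i j) ^ z.val = Z.th i ^ z.val * Z.th j ^ z.val
    rw [h1, mul_pow]
  · -- sur
    have hdim := hDIM hGLA hGLB I Z D hD
    have hg := spl_glob Z
    intro V
    by_contra hV
    push Not at hV
    let P : Finset (I × I) := (Finset.univ.filter D) ×ˢ (Finset.univ.filter (Ce Z D))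
    have hPm : ∀ x ∈ P, D x.1 ∧ Ce Z D x.2 := by
      intro x hx
      simp only [P, Finset.mem_product, Finset.mem_filter, Finset.mem_univ, true_and] at hx
      exact hx
    have hsum : ∑ x ∈ P.image (fun x => m x.1 x.2), (Z.d x : ℤ) ^ 2 = (Z.n : ℤ) ^ 2 := by
      rw [Finset.sum_image]
      · rw [← hdim]
        rw [← Finset.sum_filter, ← Finset.sum_filter, Finset.sum_mul_sum, ← Finset.sum_product']
        refine Finset.sum_congr rfl fun x hx => ?_
        obtain ⟨h1, h2⟩ := hPm x hx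
        rw [hd _ _ h1 h2]
        push_cast
        ring
      · intro x hx y hy hxy
        obtain ⟨h1, h2⟩ := hPm x hx
        obtain ⟨h3, h4⟩ := hPm y hy
        obtain ⟨h5, h6⟩ := hinj _ _ _ _ h1 h2 h3 h4 hxy
        exact Prod.ext h5 h6
    have hVn : V ∉ P.image (fun x => m x.1 x.2) := by
      intro h
      obtain ⟨x, hx, hxV⟩ := Finset.mem_image.1 h
      obtain ⟨h1, h2⟩ := hPm x hx
      exact hV x.1 x.2 h1 h2 hxV
    have hlt : ∑ x ∈ P.image (fun x => m x.1 x.2), (Z.d x : ℤ) ^ 2 < ∑ x, (Z.d x : ℤ) ^ 2 := by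
      refine Finset.sum_lt_sum_of_subset (Finset.subset_univ _) (Finset.mem_univ V) hVn ?_ ?_
      · have := Z.d_pos V
        positivity
      · intro j _ _
        positivity
    rw [hsum, hg] at hlt
    exact lt_irrefl _ hlt
  · intro i j k l hi hj hk hl
    rw [hchi (m k l) i j hi hj]
    have hdV : (Z.d (m k l) : ℂ) = (Z.d k : ℂ) * Z.d l := by
      rw [hd k l hk hl]
      push_cast
      ring
    have e1 : Cchi Z (m k l) i = Cchi Z k i := by
      have h1 := A.Sf_chi (m k l) i
      rw [A.Sf_symm, A.Sf_chi, hchi i k l hk hl, hdV] at h1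
      have h2 : Cchi Z i l = Z.d l := by
        have h3 := cen i l hi hl
        rw [A.Sf_chi] at h3
        exact mul_left_cancel₀ (dC i) h3
      have h4 : (Z.d i : ℂ) * Cchi Z i k = (Z.d k : ℂ) * Cchi Z k i := by
        rw [← A.Sf_chi, ← A.Sf_chi, A.Sf_symm]
      rw [h2] at h1
      have h5 : ((Z.d k : ℂ) * Z.d l) * Cchi Z (m k l) i =
          ((Z.d k : ℂ) * Z.d l) * Cchi Z k i := by
        rw [← h1]
        linear_combination (Z.d l : ℂ) * h4
      exact mul_left_cancel₀ (mul_ne_zero (dC k) (dC l)) h5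
    have e2 : Cchi Z (m k l) j = Cchi Z l j := by
      have h1 := A.Sf_chi (m k l) j
      rw [A.Sf_symm, A.Sf_chi, hchi j k l hk hl, hdV] at h1
      have h2 : Cchi Z j k = Z.d k := by
        have h3 := cen k j hk hj
        rw [A.Sf_symm, A.Sf_chi, mul_comm (Z.d k : ℂ)] at h3
        exact mul_left_cancel₀ (dC j) h3
      have h4 : (Z.d j : ℂ) * Cchi Z j l = (Z.d l : ℂ) * Cchi Z l j := by
        rw [← A.Sf_chi, ← A.Sf_chi, A.Sf_symm]
      rw [h2] at h1
      have h5 : ((Z.d k : ℂ) * Z.d l) * Cchi Z (m k l) j =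
          ((Z.d k : ℂ) * Z.d l) * Cchi Z l j := by
        rw [← h1]
        linear_combination (Z.d k : ℂ) * h4
      exact mul_left_cancel₀ (mul_ne_zero (dC k) (dC l)) h5
    rw [e1, e2]

end Pool.Agent.Helper71.AL
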